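import Mathlib
import Pool.Agent.TH739.PS.Num

/-!
# Double sums over differences of multiples
-/

set_option autoImplicit false

open Filter Topology MeasureTheory Set

noncomputable section

namespace Pool.Agent.TH290.RM

open Pool.Agent.TH739.PS (mn mn_nonneg sum_sq sub_summable)

/-- The model sum. -/
theorem hF {r : ℕ → ℝ} (hr : ∀ h, 0 ≤ r h) (hs : Summable fun h : ℕ => r h / ((h : ℝ) + 1)) :
    Summable fun p : ℕ × ℕ => r p.1 / (1 + (p.2 : ℝ) + (p.1 : ℝ)) ^ 2 := by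
  rw [summable_prod_of_nonneg fun p => div_nonneg (hr _) (by positivity)]
  refine ⟨fun h => ?_, ?_⟩
  · refine ((sum_sq h).1.mul_left (r h)).congr fun n => ?_
    show r h * (1 / (1 + (n : ℝ) + (h : ℝ)) ^ 2) = r h / (1 + (n : ℝ) + (h : ℝ)) ^ 2
    rw [mul_one_div]
  · refine Summable.of_nonneg_of_le (fun h => tsum_nonneg fun n => div_nonneg (hr _)
      (by positivity)) (fun h => ?_) (hs.mul_left 2)
    have e : (fun n : ℕ => r h / (1 + (n : ℝ) + (h : ℝ)) ^ 2) =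
        fun n : ℕ => r h * (1 / (1 + (n : ℝ) + (h : ℝ)) ^ 2) := by
      funext n
      rw [mul_one_div]
    show ∑' n : ℕ, r h / (1 + (n : ℝ) + (h : ℝ)) ^ 2 ≤ 2 * (r h / ((h : ℝ) + 1))
    rw [e, tsum_mul_left]
    refine (mul_le_mul_of_nonneg_left (sum_sq h).2 (hr h)).trans (le_of_eq ?_)
    rw [add_comm (1 : ℝ)]
    ring

/-- Differences of multiples of one variable. -/
theorem sumA {r : ℕ → ℝ} (hr : ∀ h, 0 ≤ r h) (hs : Summable fun h : ℕ => r h / ((h : ℝ) + 1))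
    {a b : ℕ} (hab : a ≠ b) :
    Summable fun p : ℕ × ℕ => r (Nat.dist (a * p.1) (b * p.1)) / (1 + mn p) ^ 2 := by
  have hd : 0 < Nat.dist a b := Nat.dist_pos_of_ne hab
  have h1 := hF (r := fun h => r (Nat.dist a b * h)) (fun h => hr _) (sub_summable hr hs hd)
  refine Summable.of_nonneg_of_le (fun p => div_nonneg (hr _) (by positivity)) (fun p => ?_)
    (h1.mul_left 4)
  have e : Nat.dist (a * p.1) (b * p.1) = Nat.dist a b * p.1 := Nat.dist_mul_right _ _ _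
  rw [e]
  have h2 : (p.1 : ℝ) ≤ mn p := le_max_left _ _
  have h3 : (p.2 : ℝ) ≤ mn p := le_max_right _ _
  have h4 : (0 : ℝ) ≤ p.1 := Nat.cast_nonneg _
  have h5 : (0 : ℝ) ≤ p.2 := Nat.cast_nonneg _
  have hm := mn_nonneg p
  rw [← mul_div_assoc, div_le_div_iff₀ (by positivity) (by positivity)]
  have h6 : (1 + (p.2 : ℝ) + p.1) ^ 2 ≤ 4 * (1 + mn p) ^ 2 := by
    have : (1 + (p.2 : ℝ) + p.1) ^ 2 ≤ (2 * (1 + mn p)) ^ 2 :=
      pow_le_pow_left₀ (by positivity) (by linarith) 2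
    linarith
  nlinarith [hr (Nat.dist a b * p.1)]

/-- Differences of multiples of two variables. -/
theorem sumB {r : ℕ → ℝ} (hr : ∀ h, 0 ≤ r h) (hs : Summable fun h : ℕ => r h / ((h : ℝ) + 1))
    {a b : ℕ} (ha : 0 < a) (hb : 0 < b) :
    Summable fun p : ℕ × ℕ => r (Nat.dist (a * p.1) (b * p.2)) / (1 + mn p) ^ 2 := by
  set C : ℝ := 4 * ((a : ℝ) + b) ^ 2 with hC
  have ha' : (1 : ℝ) ≤ a := by exact_mod_cast ha
  have hb' : (1 : ℝ) ≤ b := by exact_mod_cast hb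
  have h1 := (hF hr hs).mul_left C
  have hbd : ∀ p : ℕ × ℕ, r (Nat.dist (a * p.1) (b * p.2)) / (1 + mn p) ^ 2 ≤
      C * (r (Nat.dist (a * p.1) (b * p.2)) /
        (1 + (p.1 : ℝ) + ((Nat.dist (a * p.1) (b * p.2) : ℕ) : ℝ)) ^ 2) := by
    intro p
    have h2 : (p.1 : ℝ) ≤ mn p := le_max_left _ _
    have h3 : (p.2 : ℝ) ≤ mn p := le_max_right _ _
    have h4 : (0 : ℝ) ≤ p.1 := Nat.cast_nonneg _
    have h5 : (0 : ℝ) ≤ p.2 := Nat.cast_nonneg _
    have h6 : ((Nat.dist (a * p.1) (b * p.2) : ℕ) : ℝ) ≤ ((a : ℝ) + b) * mn p := by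
      have h7 : Nat.dist (a * p.1) (b * p.2) ≤ a * p.1 + b * p.2 := by
        unfold Nat.dist
        omega
      have h8 : ((Nat.dist (a * p.1) (b * p.2) : ℕ) : ℝ) ≤ ((a * p.1 + b * p.2 : ℕ) : ℝ) := by
        exact_mod_cast h7
      push_cast at h8
      nlinarith
    have hm := mn_nonneg p
    rw [← mul_div_assoc, div_le_div_iff₀ (by positivity) (by positivity)]
    have h9 : (1 + (p.1 : ℝ) + ((Nat.dist (a * p.1) (b * p.2) : ℕ) : ℝ)) ^ 2 ≤
        C * (1 + mn p) ^ 2 := by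
      have h10 : (1 + (p.1 : ℝ) + ((Nat.dist (a * p.1) (b * p.2) : ℕ) : ℝ)) ^ 2 ≤
          (2 * ((a : ℝ) + b) * (1 + mn p)) ^ 2 := by
        refine pow_le_pow_left₀ (by positivity) ?_ 2
        nlinarith
      refine h10.trans (le_of_eq ?_)
      rw [hC]
      ring
    nlinarith [hr (Nat.dist (a * p.1) (b * p.2))]
  have hside : ∀ s : Set (ℕ × ℕ), (∀ p ∈ s, ∀ q ∈ s, Nat.dist (a * p.1) (b * p.2) =
      Nat.dist (a * q.1) (b * q.2) → p.1 = q.1 → p = q) →
      Summable fun p : s => r (Nat.dist (a * p.1.1) (b * p.1.2)) / (1 + mn p.1) ^ 2 := by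
    intro s hinj
    have h2 : Function.Injective fun p : s => ((Nat.dist (a * p.1.1) (b * p.1.2), p.1.1) : ℕ × ℕ) := by
      rintro ⟨p, hp⟩ ⟨q, hq⟩ h
      simp only [Prod.mk.injEq] at h
      exact Subtype.ext (hinj p hp q hq h.1 h.2)
    refine Summable.of_nonneg_of_le (fun p => div_nonneg (hr _) (by positivity)) (fun p => ?_)
      (h1.comp_injective h2)
    exact hbd p.1
  rw [← summable_subtype_and_compl (s := {p : ℕ × ℕ | b * p.2 ≤ a * p.1})]
  refine ⟨hside _ ?_, hside _ ?_⟩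
  · rintro ⟨p1, p2⟩ hp ⟨q1, q2⟩ hq h1 h2
    simp only [mem_ofPred_eq] at hp hq h1 h2
    subst h2
    have h3 : b * p2 = b * q2 := by
      unfold Nat.dist at h1
      omega
    have h4 := Nat.eq_of_mul_eq_mul_left hb h3
    rw [h4]
  · rintro ⟨p1, p2⟩ hp ⟨q1, q2⟩ hq h1 h2
    simp only [mem_compl_iff, mem_ofPred_eq, not_le] at hp hq h1 h2
    subst h2
    have h3 : b * p2 = b * q2 := by
      unfold Nat.dist at h1
      omega
    have h4 := Nat.eq_of_mul_eq_mul_left hb h3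
    rw [h4]

theorem mn_swap (p : ℕ × ℕ) : mn p.swap = mn p := max_comm _ _

/-- the entry of a pair selected by a bit -/
def sel (b : Bool) (p : ℕ × ℕ) : ℕ := if b then p.1 else p.2

/-- all four cases -/
theorem sumS {r : ℕ → ℝ} (hr : ∀ h, 0 ≤ r h) (hs : Summable fun h : ℕ => r h / ((h : ℝ) + 1))
    {a b : ℕ} (ha : 0 < a) (hb : 0 < b) (c d : Bool) (h : c = d → a ≠ b) :
    Summable fun p : ℕ × ℕ => r (Nat.dist (a * sel c p) (b * sel d p)) / (1 + mn p) ^ 2 := by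
  have sw : ∀ f : ℕ × ℕ → ℝ, Summable f → Summable fun p : ℕ × ℕ => f p.swap := fun f hf =>
    (Equiv.prodComm ℕ ℕ).summable_iff.mpr hf
  cases c <;> cases d
  · refine (sw _ (sumA hr hs (h rfl))).congr fun p => ?_
    rw [mn_swap]
    rfl
  · refine (sumB hr hs hb ha).congr fun p => ?_
    rw [Nat.dist_comm]
    rfl
  · exact sumB hr hs ha hb
  · exact sumA hr hs (h rfl)

end Pool.Agent.TH290.RM
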