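import Mathlib
import Pool.Agent.TH290.RM.Sum
import Pool.Agent.TH739.PS.Main

/-!
# Extensions with mixing fibres
-/

set_option autoImplicit false

open Filter Topology MeasureTheory Set
open scoped ENNReal

noncomputable section

namespace Pool.Agent.TH290.RM

open Pool.Agent.TH739.PS (sk it sk_iter sk_fst sk_mp mn mn_nonneg LP_Icc good_mul ConvAll)
open Pool.Agent.TH739.PA (av avr av_add av_mul av_ofReal PZ pr bar bar_BM bar_add bar_mul
  bar_update pr_update PZ_closed ext_one ext_all ind_BM BM_update int_snd)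
open Pool.Agent.TH739.Poi (tail_red)
open Pool.Agent.W761.Gauss (BM BM_of_memLp)
open Pool.Agent.W761.Tail

/-- Let `T (x, y) = (S x, ψ x y)` on `(X × Y, μ × ν)`, where `S` preserves `μ` and the fibre maps
`ψ x` preserve `ν`; `it S ψ t x y` is the second coordinate of `T^t (x, y)`. The extension is mixing
of order `K` with log-summable rates: there is a family `𝒟` of functions `g : Y → [-1, 1]` of integral
zero, which together with the constants span a dense subspace of `L¹(ν)`, such that for all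
`g_1, …, g_k` in `𝒟`, `2 ≤ k ≤ K`, there is `r ≥ 0` with `∑ r h / (h + 1) < ∞` and
`∫ |∫ ∏_i g_i (it S ψ t_i x y) dν(y)| dμ(x) ≤ ∑_{i ≠ j} r |t_i - t_j|` for all times `t_i`. -/
structure IsMixingExtension (K : ℕ) {X Y : Type} [MeasurableSpace X] [MeasurableSpace Y]
    (μ : Measure X) (S : X → X) (ν : Measure Y) (ψ : X → Y → Y) : Prop where
  base : MeasurePreserving S μ μ
  meas : Measurable fun p : X × Y => ψ p.1 p.2
  mp : ∀ᵐ x ∂μ, MeasurePreserving (ψ x) ν ν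
  mix : ∃ 𝒟 : Set (Y → ℝ), (∀ g ∈ 𝒟, Measurable g ∧ (∀ y, |g y| ≤ 1) ∧ ∫ y, g y ∂ν = 0) ∧
    (∀ A, MeasurableSet A → ∀ ε : ℝ, 0 < ε →
      ∃ h ∈ Submodule.span ℝ (insert (fun _ => (1 : ℝ)) 𝒟),
        ∫ y, |A.indicator (fun _ => (1 : ℝ)) y - h y| ∂ν ≤ ε) ∧
    ∀ (k : ℕ) (g : Fin k → Y → ℝ), 2 ≤ k → k ≤ K → (∀ i, g i ∈ 𝒟) → ∃ r : ℕ → ℝ,
      (∀ h, 0 ≤ r h) ∧ Summable (fun h : ℕ => r h / ((h : ℝ) + 1)) ∧
      ∀ t : Fin k → ℕ, ∫ x, |∫ y, ∏ i, g i (it S ψ (t i) x y) ∂ν| ∂μ ≤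
        ∑ i, ∑ j, if i = j then 0 else r (Nat.dist (t i) (t j))

section main

variable {X Y : Type} [MeasurableSpace X] [MeasurableSpace Y]
  {μ : Measure X} {ν : Measure Y} {m K : ℕ}
  {S : X → X} {ψ : X → Y → Y} {𝒟 : Set (Y → ℝ)}

/-- Reindexing. -/
theorem mix_fin (hmix : ∀ (k : ℕ) (g : Fin k → Y → ℝ), 2 ≤ k → k ≤ K → (∀ i, g i ∈ 𝒟) →
      ∃ r : ℕ → ℝ, (∀ h, 0 ≤ r h) ∧ Summable (fun h : ℕ => r h / ((h : ℝ) + 1)) ∧
      ∀ t : Fin k → ℕ, ∫ x, |∫ y, ∏ i, g i (it S ψ (t i) x y) ∂ν| ∂μ ≤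
        ∑ i, ∑ j, if i = j then 0 else r (Nat.dist (t i) (t j)))
    {ι : Type} [Fintype ι] [DecidableEq ι] (h2 : 2 ≤ Fintype.card ι) (hK : Fintype.card ι ≤ K)
    (g : ι → Y → ℝ) (hg : ∀ i, g i ∈ 𝒟) : ∃ r : ℕ → ℝ,
      (∀ h, 0 ≤ r h) ∧ Summable (fun h : ℕ => r h / ((h : ℝ) + 1)) ∧
      ∀ t : ι → ℕ, ∫ x, |∫ y, ∏ i, g i (it S ψ (t i) x y) ∂ν| ∂μ ≤
        ∑ i, ∑ j, if i = j then 0 else r (Nat.dist (t i) (t j)) := by
  let e := Fintype.equivFin ι
  obtain ⟨r, hr, hs, h⟩ := hmix (Fintype.card ι) (fun i => g (e.symm i)) h2 hK fun i => hg _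
  refine ⟨r, hr, hs, fun t => ?_⟩
  have h3 := h fun i => t (e.symm i)
  have e1 : ∀ x y, ∏ i, g (e.symm i) (it S ψ (t (e.symm i)) x y) =
      ∏ i, g i (it S ψ (t i) x y) := fun x y =>
    Equiv.prod_comp e.symm fun i => g i (it S ψ (t i) x y)
  simp only [e1] at h3
  refine h3.trans (le_of_eq ?_)
  rw [← Equiv.sum_comp e.symm fun i => ∑ j, if i = j then 0 else r (Nat.dist (t i) (t j))]
  refine Finset.sum_congr rfl fun i _ => ?_
  rw [← Equiv.sum_comp e.symm fun j => if e.symm i = j then 0 else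
    r (Nat.dist (t (e.symm i)) (t j))]
  refine Finset.sum_congr rfl fun j _ => ?_
  simp only [e.symm.injective.eq_iff]

/-- the basic functions -/
def Qr (X : Type) [MeasurableSpace X] (𝒟 : Set (Y → ℝ)) : Set (X × Y → ℂ) :=
  {e | ∃ (D : Set X) (g : Y → ℝ), MeasurableSet D ∧ (g ∈ 𝒟 ∨ g = fun _ => 1) ∧
    e = fun z => ((D.indicator (fun _ => (1 : ℝ)) z.1 * g z.2 : ℝ) : ℂ)}

theorem ten_BM {D : Set X} (hD : MeasurableSet D) {g : Y → ℝ} (hg : Measurable g) {C : ℝ}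
    (hC : ∀ y, |g y| ≤ C) :
    BM fun z : X × Y => ((D.indicator (fun _ => (1 : ℝ)) z.1 * g z.2 : ℝ) : ℂ) := by
  refine ⟨?_, C, fun z => ?_⟩
  · exact Complex.measurable_ofReal.comp (((measurable_const.indicator hD).comp measurable_fst).mul
      (hg.comp measurable_snd))
  · rw [Complex.norm_real, Real.norm_eq_abs, abs_mul]
    have h1 : |D.indicator (fun _ => (1 : ℝ)) z.1| ≤ 1 := by
      by_cases h : z.1 ∈ D <;> simp [h]
    exact (mul_le_of_le_one_left (abs_nonneg _) h1).trans (hC _)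

section lin

variable [IsProbabilityMeasure ν] {I ι : Type*} {𝔣 : Filter I} {Bx : I → Finset ι}
  {g : Fin m → ι → X × Y → X × Y}

theorem PZ_add (F : Fin m → X × Y → ℂ) (k : Fin m) {f f' : X × Y → ℂ} (hf : BM f) (hf' : BM f')
    (h1 : PZ 𝔣 Bx μ ν g (Function.update F k f)) (h2 : PZ 𝔣 Bx μ ν g (Function.update F k f')) :
    PZ 𝔣 Bx μ ν g (Function.update F k (f + f')) := by
  filter_upwards [h1, h2] with z hz hz'
  have h3 := hz.add hz'
  rw [add_zero] at h3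
  refine h3.congr fun N => ?_
  rw [← av_add]
  congr 1
  funext n
  rw [bar_update, bar_update, bar_update, pr_update, pr_update, pr_update, pr_update,
    pr_update, pr_update, Pi.add_apply, bar_add hf hf']
  ring

omit [IsProbabilityMeasure ν] in
theorem PZ_smul (F : Fin m → X × Y → ℂ) (k : Fin m) (c : ℂ) {f : X × Y → ℂ}
    (h1 : PZ 𝔣 Bx μ ν g (Function.update F k f)) :
    PZ 𝔣 Bx μ ν g (Function.update F k fun z => c * f z) := by
  filter_upwards [h1] with z hz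
  have h3 := hz.const_mul c
  rw [mul_zero] at h3
  refine h3.congr fun N => ?_
  rw [← av_mul]
  congr 1
  funext n
  rw [bar_update, bar_update, pr_update, pr_update, pr_update, pr_update, bar_mul]
  ring

end lin

section step

variable [IsProbabilityMeasure μ] [IsProbabilityMeasure ν] {I ι : Type*} {𝔣 : Filter I}
  [𝔣.NeBot] [𝔣.IsCountablyGenerated] {Bx : I → Finset ι} {g : Fin m → ι → X × Y → X × Y}

/-- Extension in one slot. -/
theorem PZ_step (hg : ∀ j n, MeasurePreserving (g j n) (μ.prod ν) (μ.prod ν))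
    (hgood : ∀ j, Pool.Agent.TH739.PA.Good 𝔣 Bx (μ.prod ν) (g j))
    (h𝒟 : ∀ g ∈ 𝒟, Measurable g ∧ (∀ y, |g y| ≤ 1) ∧ ∫ y, g y ∂ν = 0)
    (hd : ∀ A, MeasurableSet A → ∀ ε : ℝ, 0 < ε →
      ∃ h ∈ Submodule.span ℝ (insert (fun _ => (1 : ℝ)) 𝒟),
        ∫ y, |A.indicator (fun _ => (1 : ℝ)) y - h y| ∂ν ≤ ε)
    (F : Fin m → X × Y → ℂ) (k : Fin m) (hF : ∀ j, BM (F j))
    (hQ : ∀ e ∈ Qr X 𝒟, PZ 𝔣 Bx μ ν g (Function.update F k e)) (h : X × Y → ℂ) (hh : BM h) :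
    PZ 𝔣 Bx μ ν g (Function.update F k h) := by
  have hcl : ∀ h, BM h → (∀ ε : ℝ, 0 < ε → ∃ g' : X × Y → ℂ, BM g' ∧
      ∫ z, ‖h z - g' z‖ ∂(μ.prod ν) ≤ ε ∧ PZ 𝔣 Bx μ ν g (Function.update F k g')) →
      PZ 𝔣 Bx μ ν g (Function.update F k h) := fun h hh H => PZ_closed hg hgood hF k hh H
  refine ext_one (μ := μ.prod ν) (P := fun h => PZ 𝔣 Bx μ ν g (Function.update F k h))
    (fun f f' hf hf' h1 h2 => PZ_add F k hf hf' h1 h2)
    (fun c f _ h1 => PZ_smul F k c h1) hcl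
    (𝒬 := image2 (· ×ˢ ·) {s : Set X | MeasurableSet s} {t : Set Y | MeasurableSet t})
    ?_ isPiSystem_prod ⟨univ, MeasurableSet.univ, univ, MeasurableSet.univ, univ_prod_univ⟩
    (fun C hC => ⟨C, by rw [generateFrom_prod]; exact hC, ae_eq_refl _⟩) ?_ hh
  · rintro _ ⟨D, hD, A, hA, rfl⟩
    exact MeasurableSet.prod hD hA
  · rintro _ ⟨D, hD, A, hA, rfl⟩
    have hD' : MeasurableSet D := hD
    have hA' : MeasurableSet A := hA
    refine hcl _ (ind_BM (hD'.prod hA') 1) fun ε hε => ?_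
    obtain ⟨u, hu, hi⟩ := hd A hA' ε hε
    have hprop : Measurable u ∧ (∃ C : ℝ, ∀ y, |u y| ≤ C) ∧ PZ 𝔣 Bx μ ν g (Function.update F k
        fun z => ((D.indicator (fun _ => (1 : ℝ)) z.1 * u z.2 : ℝ) : ℂ)) := by
      have h1 : PZ 𝔣 Bx μ ν g (Function.update F k
          fun z => ((D.indicator (fun _ => (1 : ℝ)) z.1 * 1 : ℝ) : ℂ)) :=
        hQ _ ⟨D, fun _ => 1, hD', Or.inr rfl, rfl⟩
      refine Submodule.span_induction (p := fun u _ => Measurable u ∧ (∃ C : ℝ, ∀ y, |u y| ≤ C) ∧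
        PZ 𝔣 Bx μ ν g (Function.update F k
          fun z => ((D.indicator (fun _ => (1 : ℝ)) z.1 * u z.2 : ℝ) : ℂ))) ?_ ?_ ?_ ?_ hu
      · intro v hv
        rcases hv with rfl | hv
        · exact ⟨measurable_const, ⟨1, fun y => by simp⟩, h1⟩
        · obtain ⟨a1, a2, _⟩ := h𝒟 v hv
          exact ⟨a1, ⟨1, a2⟩, hQ _ ⟨D, v, hD', Or.inl hv, rfl⟩⟩
      · refine ⟨measurable_const, ⟨0, fun y => by simp⟩, ?_⟩
        have h2 := PZ_smul F k 0 h1
        convert h2 using 3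
        simp
      · rintro v w _ _ ⟨a1, ⟨C1, a2⟩, a3⟩ ⟨b1, ⟨C2, b2⟩, b3⟩
        refine ⟨a1.add b1, ⟨C1 + C2, fun y => (abs_add_le _ _).trans (add_le_add (a2 y) (b2 y))⟩, ?_⟩
        have h2 := PZ_add F k (ten_BM hD' a1 a2) (ten_BM hD' b1 b2) a3 b3
        convert h2 using 3
        rw [Pi.add_apply, Pi.add_apply, mul_add]
        push_cast
        ring
      · rintro c v _ ⟨a1, ⟨C1, a2⟩, a3⟩
        refine ⟨a1.const_mul c, ⟨|c| * C1, fun y => ?_⟩, ?_⟩
        · rw [Pi.smul_apply, smul_eq_mul, abs_mul]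
          exact mul_le_mul_of_nonneg_left (a2 y) (abs_nonneg _)
        · have h2 := PZ_smul F k (c : ℂ) a3
          convert h2 using 3
          rw [Pi.smul_apply, smul_eq_mul]
          push_cast
          ring
    obtain ⟨hum, ⟨C, hC⟩, hP⟩ := hprop
    refine ⟨_, ten_BM hD' hum hC, ?_, hP⟩
    have hb2 : ∀ y, |A.indicator (fun _ => (1 : ℝ)) y - u y| ≤ 1 + C := by
      intro y
      refine (abs_sub _ _).trans (add_le_add ?_ (hC y))
      by_cases h : y ∈ A <;> simp [h]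
    have hm2 : Measurable fun y => |A.indicator (fun _ => (1 : ℝ)) y - u y| :=
      ((measurable_const.indicator hA').sub hum).abs
    have e1 : (fun z : X × Y => ‖(D ×ˢ A).indicator (fun _ => (1 : ℂ)) z -
        ((D.indicator (fun _ => (1 : ℝ)) z.1 * u z.2 : ℝ) : ℂ)‖) ≤ᵐ[μ.prod ν] fun z =>
        |A.indicator (fun _ => (1 : ℝ)) z.2 - u z.2| := by
      refine Eventually.of_forall fun z => ?_
      show ‖_‖ ≤ |_|
      have e2 : (D ×ˢ A).indicator (fun _ => (1 : ℂ)) z -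
          ((D.indicator (fun _ => (1 : ℝ)) z.1 * u z.2 : ℝ) : ℂ) =
          ((D.indicator (fun _ => (1 : ℝ)) z.1 *
            (A.indicator (fun _ => (1 : ℝ)) z.2 - u z.2) : ℝ) : ℂ) := by
        by_cases h1 : z.1 ∈ D <;> by_cases h2 : z.2 ∈ A <;> simp [h1, h2, Set.indicator]
      rw [e2, Complex.norm_real, Real.norm_eq_abs, abs_mul]
      refine mul_le_of_le_one_left (abs_nonneg _) ?_
      by_cases h : z.1 ∈ D <;> simp [h]
    refine (integral_mono_of_nonneg (Eventually.of_forall fun z => norm_nonneg _) ?_ e1).trans ?_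
    · exact Integrable.of_bound (hm2.comp measurable_snd).aestronglyMeasurable (1 + C)
        (Eventually.of_forall fun z => by
          rw [Real.norm_eq_abs, abs_abs]
          exact hb2 _)
    · have e2 := int_snd (μ := μ) (ν := ν) fun y => |A.indicator (fun _ => (1 : ℝ)) y - u y|
      rw [e2]
      exact hi

end step

end main

end Pool.Agent.TH290.RM
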