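import Mathlib
import Pool.Agent.TH290.RM.Main

/-!
# The basic functions and the main theorem
-/

set_option autoImplicit false

open Filter Topology MeasureTheory Set
open scoped ENNReal

noncomputable section

namespace Pool.Agent.TH290.RM

open Pool.Agent.TH739.PS (sk it sk_iter sk_fst sk_mp mn mn_nonneg LP_Icc good_mul ConvAll)
open Pool.Agent.TH739.PA (av avr av_add av_mul av_ofReal PZ pr bar bar_BM bar_add bar_mul
  bar_update pr_update PZ_closed ext_one ext_all ind_BM BM_update int_snd)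
open Pool.Agent.TH739.Poi (tail_red)
open Pool.Agent.W761.Gauss (BM BM_of_memLp)
open Pool.Agent.W761.Tail

variable {X Y : Type} [MeasurableSpace X] [MeasurableSpace Y]
  {μ : Measure X} {ν : Measure Y} {m K : ℕ}
  {S : X → X} {ψ : X → Y → Y} {𝒟 : Set (Y → ℝ)}

theorem it_meas (hS : Measurable S) (hψ : Measurable fun p : X × Y => ψ p.1 p.2) (n : ℕ) :
    Measurable fun p : X × Y => it S ψ n p.1 p.2 := by
  have h1 : Measurable (sk S ψ) := (hS.comp measurable_fst).prodMk hψ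
  exact measurable_snd.comp (h1.iterate n)

/-- bound of one correlation -/
theorem corr_le [IsProbabilityMeasure μ] [IsProbabilityMeasure ν]
    {c : X → ℝ} (hc : Measurable c) (hc1 : ∀ x, |c x| ≤ 1)
    {G : X × Y → ℝ} (hG : Measurable G) (hG1 : ∀ z, |G z| ≤ 1) :
    ∫ z, c z.1 * G z ∂(μ.prod ν) ≤ ∫ x, |∫ y, G (x, y) ∂ν| ∂μ := by
  have hb : ∀ z : X × Y, ‖c z.1 * G z‖ ≤ 1 := fun z => by
    rw [Real.norm_eq_abs, abs_mul]
    exact mul_le_one₀ (hc1 _) (abs_nonneg _) (hG1 _)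
  have hi : Integrable (fun z : X × Y => c z.1 * G z) (μ.prod ν) :=
    Integrable.of_bound ((hc.comp measurable_fst).mul hG).aestronglyMeasurable 1
      (Eventually.of_forall hb)
  have hgm : Measurable fun x => ∫ y, G (x, y) ∂ν :=
    (StronglyMeasurable.integral_prod_right' (ν := ν) hG.stronglyMeasurable).measurable
  have hgb : ∀ x, |∫ y, G (x, y) ∂ν| ≤ 1 := fun x => by
    have h1 := norm_integral_le_of_norm_le_const (μ := ν) (f := fun y => G (x, y)) (C := 1)
      (Eventually.of_forall fun y => by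
        rw [Real.norm_eq_abs]
        exact hG1 _)
    simpa using h1
  rw [integral_prod _ hi]
  simp only [integral_const_mul]
  refine integral_mono (Integrable.of_bound (hc.mul hgm).aestronglyMeasurable 1
    (Eventually.of_forall fun x => ?_)) (Integrable.of_bound hgm.abs.aestronglyMeasurable 1
    (Eventually.of_forall fun x => ?_)) fun x => ?_
  · rw [Real.norm_eq_abs, abs_mul]
    exact mul_le_one₀ (hc1 _) (abs_nonneg _) (hgb _)
  · rw [Real.norm_eq_abs, abs_abs]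
    exact hgb _
  · show c x * ∫ y, G (x, y) ∂ν ≤ |∫ y, G (x, y) ∂ν|
    refine (le_abs_self _).trans ?_
    rw [abs_mul]
    exact mul_le_of_le_one_left (abs_nonneg _) (hc1 _)

/-- the product of the functions along the fibre -/
def GG (S : X → X) (ψ : X → Y → Y) (a : Fin m → ℕ) (g : Fin m → Y → ℝ) (n : ℕ) (z : X × Y) : ℝ :=
  ∏ j, g j (it S ψ (a j * n) z.1 z.2)

/-- the product of the indicators on the base -/
def cc (S : X → X) (a : Fin m → ℕ) (D : Fin m → Set X) (n : ℕ) (x : X) : ℝ :=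
  ∏ j, (D j).indicator (fun _ => (1 : ℝ)) (S^[a j * n] x)

omit [MeasurableSpace X] [MeasurableSpace Y] in
theorem GG_abs {a : Fin m → ℕ} {g : Fin m → Y → ℝ} (hg1 : ∀ j y, |g j y| ≤ 1) (n : ℕ)
    (z : X × Y) : |GG S ψ a g n z| ≤ 1 := by
  unfold GG
  rw [Finset.abs_prod]
  exact Finset.prod_le_one (fun j _ => abs_nonneg _) fun j _ => hg1 _ _

omit [MeasurableSpace X] in
theorem cc_abs {a : Fin m → ℕ} {D : Fin m → Set X} (n : ℕ) (x : X) : |cc S a D n x| ≤ 1 := by
  unfold cc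
  rw [Finset.abs_prod]
  refine Finset.prod_le_one (fun j _ => abs_nonneg _) fun j _ => ?_
  by_cases h : S^[a j * n] x ∈ D j <;> simp [h]

theorem GG_meas (hS : Measurable S) (hψ : Measurable fun p : X × Y => ψ p.1 p.2)
    {a : Fin m → ℕ} {g : Fin m → Y → ℝ} (hg : ∀ j, Measurable (g j)) (n : ℕ) :
    Measurable (GG S ψ a g n) :=
  Finset.measurable_fun_prod _ fun j _ => (hg j).comp (it_meas hS hψ _)

theorem cc_meas (hS : Measurable S) {a : Fin m → ℕ} {D : Fin m → Set X}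
    (hD : ∀ j, MeasurableSet (D j)) (n : ℕ) : Measurable (cc S a D n) :=
  Finset.measurable_fun_prod _ fun j _ => (measurable_const.indicator (hD j)).comp (hS.iterate _)

/-- The second moments. -/
theorem moment [IsProbabilityMeasure μ] [IsProbabilityMeasure ν]
    (hS : Measurable S) (hψ : Measurable fun p : X × Y => ψ p.1 p.2)
    {a : Fin m → ℕ} {g : Fin m → Y → ℝ} (hg : ∀ j, Measurable (g j)) (hg1 : ∀ j y, |g j y| ≤ 1)
    {D : Fin m → Set X} (hD : ∀ j, MeasurableSet (D j)) {q : ℕ × ℕ → ℝ}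
    (hq : ∀ p : ℕ × ℕ, ∫ x, |∫ y, GG S ψ a g p.1 (x, y) * GG S ψ a g p.2 (x, y) ∂ν| ∂μ ≤ q p)
    (s : Finset ℕ) :
    ∫ z : X × Y, (∑ n ∈ s, cc S a D n z.1 * GG S ψ a g n z) ^ 2 ∂(μ.prod ν) ≤
      ∑ p ∈ s ×ˢ s, q p := by
  have hξm : ∀ n, Measurable fun z : X × Y => cc S a D n z.1 * GG S ψ a g n z := fun n =>
    ((cc_meas hS hD n).comp measurable_fst).mul (GG_meas hS hψ hg n)
  have hξb : ∀ n (z : X × Y), |cc S a D n z.1 * GG S ψ a g n z| ≤ 1 := fun n z => by
    rw [abs_mul]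
    exact mul_le_one₀ (cc_abs _ _) (abs_nonneg _) (GG_abs hg1 _ _)
  have e1 : ∀ z : X × Y, (∑ n ∈ s, cc S a D n z.1 * GG S ψ a g n z) ^ 2 =
      ∑ p ∈ s ×ˢ s, (cc S a D p.1 z.1 * GG S ψ a g p.1 z) * (cc S a D p.2 z.1 * GG S ψ a g p.2 z) := by
    intro z
    rw [sq, Finset.sum_mul_sum, Finset.sum_product]
  simp only [e1]
  rw [integral_finsetSum]
  · refine Finset.sum_le_sum fun p _ => ?_
    refine le_trans (le_of_eq ?_) ((corr_le (μ := μ) (ν := ν)
      (c := fun x => cc S a D p.1 x * cc S a D p.2 x)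
      ((cc_meas hS hD _).mul (cc_meas hS hD _)) (fun x => ?_)
      (G := fun z => GG S ψ a g p.1 z * GG S ψ a g p.2 z)
      ((GG_meas hS hψ hg _).mul (GG_meas hS hψ hg _)) (fun z => ?_)).trans (hq p))
    · refine integral_congr_ae (Eventually.of_forall fun z => ?_)
      show _ * _ * (_ * _) = _ * _ * (_ * _)
      ring
    · rw [abs_mul]
      exact mul_le_one₀ (cc_abs _ _) (abs_nonneg _) (cc_abs _ _)
    · rw [abs_mul]
      exact mul_le_one₀ (GG_abs hg1 _ _) (abs_nonneg _) (GG_abs hg1 _ _)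
  · intro p _
    refine Integrable.of_bound ((hξm _).mul (hξm _)).aestronglyMeasurable 1
      (Eventually.of_forall fun z => ?_)
    rw [Real.norm_eq_abs, abs_mul]
    exact mul_le_one₀ (hξb _ _) (abs_nonneg _) (hξb _ _)

/-- The basic functions. -/
theorem PZ_base [IsProbabilityMeasure μ] [IsProbabilityMeasure ν]
    (hS : MeasurePreserving S μ μ) (hψm : Measurable fun p : X × Y => ψ p.1 p.2)
    (h𝒟 : ∀ g ∈ 𝒟, Measurable g ∧ (∀ y, |g y| ≤ 1) ∧ ∫ y, g y ∂ν = 0)
    (hmix : ∀ (k : ℕ) (g : Fin k → Y → ℝ), 2 ≤ k → k ≤ K → (∀ i, g i ∈ 𝒟) →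
      ∃ r : ℕ → ℝ, (∀ h, 0 ≤ r h) ∧ Summable (fun h : ℕ => r h / ((h : ℝ) + 1)) ∧
      ∀ t : Fin k → ℕ, ∫ x, |∫ y, ∏ i, g i (it S ψ (t i) x y) ∂ν| ∂μ ≤
        ∑ i, ∑ j, if i = j then 0 else r (Nat.dist (t i) (t j)))
    (hK : 2 * m ≤ K) {a : Fin m → ℕ} (ha : ∀ j, 0 < a j) (hai : Function.Injective a)
    {g : Fin m → Y → ℝ} (hg : ∀ j, g j ∈ 𝒟 ∨ g j = fun _ => 1)
    {D : Fin m → Set X} (hD : ∀ j, MeasurableSet (D j)) :
    PZ atTop (fun N : ℕ => Finset.Icc 1 N) μ ν (fun j n => (sk S ψ)^[a j * n])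
      (fun j z => (((D j).indicator (fun _ => (1 : ℝ)) z.1 * g j z.2 : ℝ) : ℂ)) := by
  classical
  have hgm : ∀ j, Measurable (g j) := fun j => by
    rcases hg j with h | h
    · exact (h𝒟 _ h).1
    · rw [h]
      exact measurable_const
  have hg1 : ∀ j y, |g j y| ≤ 1 := fun j y => by
    rcases hg j with h | h
    · exact (h𝒟 _ h).2.1 y
    · rw [h]
      simp
  have hbar : ∀ j (z : X × Y), bar ν (fun z : X × Y =>
      (((D j).indicator (fun _ => (1 : ℝ)) z.1 * g j z.2 : ℝ) : ℂ)) z =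
      (((D j).indicator (fun _ => (1 : ℝ)) z.1 * ∫ y, g j y ∂ν : ℝ) : ℂ) := by
    intro j z
    unfold bar
    rw [integral_complex_ofReal]
    show ((∫ y, (D j).indicator (fun _ => (1 : ℝ)) z.1 * g j y ∂ν : ℝ) : ℂ) = _
    rw [integral_const_mul]
  have hpr : ∀ n (z : X × Y), pr (fun j n => (sk S ψ)^[a j * n]) (fun (j : Fin m) z =>
      (((D j).indicator (fun _ => (1 : ℝ)) z.1 * g j z.2 : ℝ) : ℂ)) n z =
      ((cc S a D n z.1 * GG S ψ a g n z : ℝ) : ℂ) := by
    rintro n ⟨x, y⟩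
    unfold pr cc GG
    rw [← Finset.prod_mul_distrib, Complex.ofReal_prod]
    refine Finset.prod_congr rfl fun j _ => ?_
    show ((((D j).indicator (fun _ => (1 : ℝ)) ((sk S ψ)^[a j * n] (x, y)).1 *
      g j ((sk S ψ)^[a j * n] (x, y)).2 : ℝ)) : ℂ) = _
    rw [sk_iter]
  by_cases hall : ∀ j, g j = fun _ => 1
  · refine Eventually.of_forall fun z => ?_
    refine tendsto_const_nhds.congr fun N => ?_
    have e : (fun n => pr (fun j n => (sk S ψ)^[a j * n]) (fun (j : Fin m) z =>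
        (((D j).indicator (fun _ => (1 : ℝ)) z.1 * g j z.2 : ℝ) : ℂ)) n z -
        pr (fun j n => (sk S ψ)^[a j * n]) (fun l => bar ν (fun z : X × Y =>
        (((D l).indicator (fun _ => (1 : ℝ)) z.1 * g l z.2 : ℝ) : ℂ))) n z) = fun _ => 0 := by
      funext n
      rw [sub_eq_zero]
      unfold pr
      refine Finset.prod_congr rfl fun j _ => ?_
      refine Eq.trans ?_ (hbar j _).symm
      simp [hall j]
    rw [e]
    simp [av]
  -- some function has zero integral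
  obtain ⟨j₀, hj₀⟩ := not_forall.mp hall
  have hj₀' : g j₀ ∈ 𝒟 := (hg j₀).resolve_right hj₀
  have hprbar : ∀ n (z : X × Y), pr (fun j n => (sk S ψ)^[a j * n]) (fun l => bar ν
      (fun z : X × Y => (((D l).indicator (fun _ => (1 : ℝ)) z.1 * g l z.2 : ℝ) : ℂ))) n z = 0 := by
    intro n z
    unfold pr
    refine Finset.prod_eq_zero (Finset.mem_univ j₀) ((hbar j₀ _).trans ?_)
    rw [(h𝒟 _ hj₀').2.2, mul_zero, Complex.ofReal_zero]
  -- the index set
  let J : Type := {j : Fin m // g j ≠ fun _ => 1}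
  have hJ : ∀ j : J, g j.1 ∈ 𝒟 := fun j => (hg j.1).resolve_right j.2
  have hcard : Fintype.card (J × Bool) = 2 * Fintype.card J := by
    rw [Fintype.card_prod, Fintype.card_bool, mul_comm]
  have hJ1 : 1 ≤ Fintype.card J := Fintype.card_pos_iff.mpr ⟨⟨j₀, hj₀⟩⟩
  have hJm : Fintype.card J ≤ m := by
    have := Fintype.card_subtype_le fun j : Fin m => g j ≠ fun _ => 1
    rwa [Fintype.card_fin] at this
  obtain ⟨r, hr, hs, hcor⟩ := mix_fin (μ := μ) (ν := ν) (S := S) (ψ := ψ) hmix (ι := J × Bool)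
    (by omega) (by omega) (fun i => g i.1.1) fun i => hJ i.1
  let q : ℕ × ℕ → ℝ := fun p => ∑ i : J × Bool, ∑ i' : J × Bool, if i = i' then 0 else
    r (Nat.dist (a i.1.1 * sel i.2 p) (a i'.1.1 * sel i'.2 p))
  have hq0 : ∀ p, 0 ≤ q p := fun p => Finset.sum_nonneg fun i _ => Finset.sum_nonneg fun i' _ => by
    split_ifs
    · exact le_rfl
    · exact hr _
  have hqs : Summable fun p => q p / (1 + mn p) ^ 2 := by
    have h1 : Summable fun p : ℕ × ℕ => ∑ i : J × Bool, ∑ i' : J × Bool,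
        (if i = i' then 0 else r (Nat.dist (a i.1.1 * sel i.2 p) (a i'.1.1 * sel i'.2 p))) /
          (1 + mn p) ^ 2 := by
      refine summable_sum fun i _ => summable_sum fun i' _ => ?_
      by_cases hii : i = i'
      · simp only [hii, if_true, zero_div]
        exact summable_zero
      · simp only [hii, if_false]
        refine sumS hr hs (ha _) (ha _) _ _ fun h2 h3 => hii ?_
        exact Prod.ext (Subtype.ext (hai h3)) h2
    refine h1.congr fun p => ?_
    show _ = (∑ i : J × Bool, ∑ i' : J × Bool, _) / _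
    rw [Finset.sum_div]
    refine Finset.sum_congr rfl fun i _ => ?_
    rw [Finset.sum_div]
  have hq : ∀ p : ℕ × ℕ, ∫ x, |∫ y, GG S ψ a g p.1 (x, y) * GG S ψ a g p.2 (x, y) ∂ν| ∂μ ≤ q p := by
    intro p
    have h1 := hcor fun i => a i.1.1 * sel i.2 p
    have e1 : ∀ x y, ∏ i : J × Bool, g i.1.1 (it S ψ (a i.1.1 * sel i.2 p) x y) =
        GG S ψ a g p.1 (x, y) * GG S ψ a g p.2 (x, y) := by
      intro x y
      rw [Fintype.prod_prod_type]
      simp only [Fintype.prod_bool]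
      rw [GG, GG, ← Finset.prod_mul_distrib]
      have e2 := Finset.prod_filter_of_ne (s := (Finset.univ : Finset (Fin m)))
        (f := fun j => g j (it S ψ (a j * p.1) x y) * g j (it S ψ (a j * p.2) x y))
        (p := fun j => g j ≠ fun _ => 1) fun j _ h => fun h4 => h (by simp [h4])
      refine Eq.trans ?_ e2
      exact (Finset.prod_subtype (Finset.univ.filter fun j => g j ≠ fun _ => 1) (by simp)
        fun j => g j (it S ψ (a j * p.1) x y) * g j (it S ψ (a j * p.2) x y)).symm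
    simp only [e1] at h1
    exact h1
  have hLP := LP_Icc hq0 hqs (X × Y) inferInstance (μ.prod ν) inferInstance
    (fun n z => cc S a D n z.1 * GG S ψ a g n z)
    (fun n => ((cc_meas hS.measurable hD n).comp measurable_fst).mul
      (GG_meas hS.measurable hψm hgm n))
    (fun n z => by
      rw [abs_mul]
      exact mul_le_one₀ (cc_abs _ _) (abs_nonneg _) (GG_abs hg1 _ _))
    (fun N => moment hS.measurable hψm hgm hg1 hD hq _)
  filter_upwards [hLP] with z hz
  have h1 := (Complex.continuous_ofReal.tendsto 0).comp hz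
  rw [Complex.ofReal_zero] at h1
  refine h1.congr fun N => ?_
  show ((avr _ _ : ℝ) : ℂ) = _
  rw [← av_ofReal]
  congr 1
  funext n
  rw [hpr, hprbar, sub_zero]

/-- **Bounded functions.** -/
theorem IsMixingExtension.PZ [IsProbabilityMeasure μ] [IsProbabilityMeasure ν]
    (h : IsMixingExtension K μ S ν ψ) (hK : 2 * m ≤ K) {a : Fin m → ℕ} (ha : ∀ j, 0 < a j)
    (hai : Function.Injective a) {F : Fin m → X × Y → ℂ} (hF : ∀ j, BM (F j)) :
    Pool.Agent.TH739.PA.PZ atTop (fun N : ℕ => Finset.Icc 1 N) μ ν (fun j n => (sk S ψ)^[a j * n]) F := by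
  obtain ⟨𝒟, h1, h2, h3⟩ := h.mix
  have hT := sk_mp h.base h.meas h.mp
  refine ext_all (P := Pool.Agent.TH739.PA.PZ atTop (fun N : ℕ => Finset.Icc 1 N) μ ν
    (fun j n => (sk S ψ)^[a j * n])) (𝒬 := Qr X 𝒟) ?_ ?_ ?_ hF
  · rintro e ⟨D, g, hD, hg | hg, rfl⟩
    · exact ten_BM hD (h1 g hg).1 (h1 g hg).2.1
    · refine ten_BM hD (C := 1) (g := g) (by rw [hg]; exact measurable_const) fun y => ?_
      rw [hg]
      simp
  · intro f k hf hQ u hu
    exact PZ_step (fun j n => hT.iterate _) (fun j => good_mul hT (a j)) h1 h2 f k hf hQ u hu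
  · intro f hf
    choose D g hD hg e using hf
    have : f = fun j z => (((D j).indicator (fun _ => (1 : ℝ)) z.1 * g j z.2 : ℝ) : ℂ) :=
      funext e
    rw [this]
    exact PZ_base h.base h.meas h1 h3 hK ha hai hg hD

section concl

variable [IsProbabilityMeasure μ] [IsProbabilityMeasure ν]

theorem IsMixingExtension.map (h : IsMixingExtension K μ S ν ψ) :
    MeasurePreserving (sk S ψ) (μ.prod ν) (μ.prod ν) := sk_mp h.base h.meas h.mp

/-- **The base is characteristic.** -/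
theorem IsMixingExtension.char (h : IsMixingExtension K μ S ν ψ) (hK : 2 * m ≤ K)
    {a : Fin m → ℕ} (ha : ∀ j, 0 < a j) (hai : Function.Injective a)
    {f : Fin m → X × Y → ℂ} (hf : ∀ j, MemLp (f j) ∞ (μ.prod ν)) :
    ∀ᵐ z ∂(μ.prod ν), Tendsto (fun N : ℕ => (N : ℂ)⁻¹ * ∑ n ∈ Finset.Icc 1 N,
      (∏ j, f j ((sk S ψ)^[a j * n] z) - ∏ j, ∫ y, f j (S^[a j * n] z.1, y) ∂ν))
      atTop (𝓝 0) := by
  choose F hF hfF using fun j => BM_of_memLp (hf j)
  have hT := h.map
  have h0 := h.PZ hK ha hai hF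
  have h1 : ∀ᵐ z ∂(μ.prod ν), ∀ n j, f j ((sk S ψ)^[a j * n] z) = F j ((sk S ψ)^[a j * n] z) := by
    rw [ae_all_iff]
    intro n
    rw [ae_all_iff]
    intro j
    exact (hT.iterate _).quasiMeasurePreserving.ae (hfF j)
  have h2 : ∀ j, ∀ᵐ x ∂μ, ∫ y, f j (x, y) ∂ν = ∫ y, F j (x, y) ∂ν := by
    intro j
    filter_upwards [Measure.ae_ae_of_ae_prod (hfF j)] with x hx
    exact integral_congr_ae hx
  have h3 : ∀ᵐ x ∂μ, ∀ n j, ∫ y, f j (S^[a j * n] x, y) ∂ν = ∫ y, F j (S^[a j * n] x, y) ∂ν := by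
    rw [ae_all_iff]
    intro n
    rw [ae_all_iff]
    intro j
    exact (h.base.iterate _).quasiMeasurePreserving.ae (h2 j)
  have h3' : ∀ᵐ z ∂(μ.prod ν), ∀ n j, ∫ y, f j (S^[a j * n] z.1, y) ∂ν =
      ∫ y, F j (S^[a j * n] z.1, y) ∂ν := Measure.quasiMeasurePreserving_fst.ae h3
  filter_upwards [h0, h1, h3'] with z hz hz1 hz2
  refine hz.congr fun N => ?_
  rw [av, Nat.card_Icc, Nat.add_sub_cancel]
  congr 1
  refine Finset.sum_congr rfl fun n _ => ?_
  congr 1
  · exact Finset.prod_congr rfl fun j _ => (hz1 n j).symm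
  · refine Finset.prod_congr rfl fun j _ => ?_
    rw [hz2 n j]
    show ∫ y, F j (((sk S ψ)^[a j * n] z).1, y) ∂ν = _
    rw [sk_fst]

/-- Transfer of convergence. -/
theorem IsMixingExtension.cvg (h : IsMixingExtension K μ S ν ψ) (hK : 2 * m ≤ K)
    (hb : ConvAll m μ S) {g : Fin m → X × Y → ℂ}
    (hg : ∀ j, BM (g j)) : Cvg (μ.prod ν) (sk S ψ) g := by
  have h1 := h.char hK (a := fun j : Fin m => (j : ℕ) + 1) (fun j => Nat.succ_pos _)
    (fun i j hij => Fin.ext (Nat.succ_injective hij)) (f := g) fun j => by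
      obtain ⟨hm, C, hC⟩ := hg j
      exact memLp_top_of_bound hm.aestronglyMeasurable C (Eventually.of_forall hC)
  have h2 := hb (fun j x => ∫ y, g j (x, y) ∂ν)
    (fun j => (StronglyMeasurable.integral_prod_right' (ν := ν)
      (hg j).1.stronglyMeasurable).measurable) fun j => by
      obtain ⟨hm, C, hC⟩ := hg j
      refine ⟨C, fun x => ?_⟩
      have h3 := norm_integral_le_of_norm_le_const (μ := ν) (f := fun y => g j (x, y))
        (Eventually.of_forall fun y => hC (x, y))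
      simpa using h3
  filter_upwards [h1, Measure.quasiMeasurePreserving_fst.ae h2] with z hz hz'
  obtain ⟨L, hL⟩ := hz'
  refine ⟨0 + L, (hz.add hL).congr fun N => ?_⟩
  rw [← mul_add, ← Finset.sum_add_distrib, A]
  congr 1
  have h5 := Finset.sum_Ico_add' (fun n => ∏ j : Fin m, g j ((sk S ψ)^[((j : ℕ) + 1) * n] z)) 0 N 1
  rw [Finset.range_eq_Ico]
  refine (Finset.sum_congr rfl fun n _ => ?_).trans h5.symm
  ring

/-- **Convergence for systems whose tail comes from a mixing extension.** -/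
theorem IsMixingExtension.tail (h : IsMixingExtension K μ S ν ψ) (hK : 2 * m ≤ K)
    (hb : ConvAll m μ S) {V Z : Type} {𝒜 : MeasurableSpace V}
    [mV : MeasurableSpace V] [MeasurableSpace Z] {P : Measure V} [IsProbabilityMeasure P]
    {ρ : Measure Z} {U : V → V} (hU : MeasurePreserving U P P) (h𝒜 : IsExhaustive P U 𝒜)
    {Q : Z → Z} (hQ : Measurable Q) {φ : V → Z} (hφ : MeasurePreserving φ P ρ)
    (hφU : ∀ᵐ v ∂P, φ (U v) = Q (φ v))
    (htail : ∀ B, IsTailSet P U 𝒜 B → ∃ D, MeasurableSet D ∧ B =ᵐ[P] φ ⁻¹' D)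
    {π : X × Y → Z} (hπ : MeasurePreserving π (μ.prod ν) ρ)
    (hπT : ∀ᵐ z ∂(μ.prod ν), π (sk S ψ z) = Q (π z))
    {f : Fin m → V → ℂ} (hf : ∀ j, MemLp (f j) ∞ P) :
    ∀ᵐ v ∂P, ∃ L : ℂ, Tendsto (fun N : ℕ => (N : ℂ)⁻¹ * ∑ n ∈ Finset.Icc 1 N,
      ∏ j : Fin m, f j (U^[((j : ℕ) + 1) * n] v)) atTop (𝓝 L) :=
  tail_red hU h𝒜 hQ hφ hφU htail h.map hπ hπT (fun _ hg => h.cvg hK hb hg) hf

end concl

end Pool.Agent.TH290.RM
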